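import Pool.Agent.E8helper85.Q2.SupA
import Pool.Agent.E8helper23.F1.FamCore

/-!
Project F3, piece SUP3 (core): the supplementary law of the quartic symbol for `1 + i`.
-/

set_option autoImplicit false
set_option linter.unusedSectionVars false

namespace Pool.Agent.E8helper10.F3

open Pool.Agent.Y699
open H385 (ZI RQ im1 nrm)
open Pool.Agent.W164.RC (Ip Ip_spec Ip_exists Ip_one Ip_three dg two2 prim_iff_dvd unit_norm unit_cases)
open Pool.Agent.H304R2.EC.A1 (prim prim_mul prim_cancel prim_one prim_norm_odd prim_star eq_one_of_prim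
  norm_def' re_mul' im_mul' eq_of_dvd prim_ne_zero)
open Pool.Agent.E8helper85.Q2 (im1_pow_mod not_nat_dvd dvd_of_parts cast_nab)
open Pool.Agent.E8helper21.QT (star_pi1 JJ_all pi1_ndvd)

/-- powers of `i` with integral exponents -/
def fi (a : ℤ) : ZI := im1 ^ (a % 4).toNat

lemma fi_add (a b : ℤ) : fi (a + b) = fi a * fi b := by
  unfold fi
  rw [← pow_add]
  apply im1_pow_mod
  omega

lemma fi_mod {a b : ℤ} (h : a % 4 = b % 4) : fi a = fi b := by
  unfold fi
  rw [h]

lemma fi_nat (n : ℕ) : fi n = im1 ^ n := by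
  unfold fi
  apply im1_pow_mod
  omega

/-- `(s4 n * n - 1) / 4` -/
def ex (n : ℕ) : ℤ := if n % 4 = 1 then ((n : ℤ) - 1) / 4 else (-(n : ℤ) - 1) / 4

lemma ex_mul {m n : ℕ} (hm : m % 2 = 1) (hn : n % 2 = 1) : ex (m * n) % 4 = (ex m + ex n) % 4 := by
  have hm4 : m % 4 = 1 ∨ m % 4 = 3 := by omega
  have hn4 : n % 4 = 1 ∨ n % 4 = 3 := by omega
  unfold ex
  rcases hm4 with h1 | h1 <;> rcases hn4 with h2 | h2
  · obtain ⟨a, rfl⟩ : ∃ a, m = 4 * a + 1 := ⟨m / 4, by omega⟩
    obtain ⟨b, rfl⟩ : ∃ b, n = 4 * b + 1 := ⟨n / 4, by omega⟩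
    have e : (4 * a + 1) * (4 * b + 1) = 4 * (4 * (a * b) + a + b) + 1 := by ring
    rw [e, if_pos (by omega), if_pos h1, if_pos h2]
    push_cast
    generalize ((a : ℤ) * b) = w
    omega
  · obtain ⟨a, rfl⟩ : ∃ a, m = 4 * a + 1 := ⟨m / 4, by omega⟩
    obtain ⟨b, rfl⟩ : ∃ b, n = 4 * b + 3 := ⟨n / 4, by omega⟩
    have e : (4 * a + 1) * (4 * b + 3) = 4 * (4 * (a * b) + 3 * a + b) + 3 := by ring
    rw [e, if_neg (by omega), if_pos h1, if_neg (by omega)]
    push_cast
    generalize ((a : ℤ) * b) = w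
    omega
  · obtain ⟨a, rfl⟩ : ∃ a, m = 4 * a + 3 := ⟨m / 4, by omega⟩
    obtain ⟨b, rfl⟩ : ∃ b, n = 4 * b + 1 := ⟨n / 4, by omega⟩
    have e : (4 * a + 3) * (4 * b + 1) = 4 * (4 * (a * b) + a + 3 * b) + 3 := by ring
    rw [e, if_neg (by omega), if_neg (by omega), if_pos h2]
    push_cast
    generalize ((a : ℤ) * b) = w
    omega
  · obtain ⟨a, rfl⟩ : ∃ a, m = 4 * a + 3 := ⟨m / 4, by omega⟩
    obtain ⟨b, rfl⟩ : ∃ b, n = 4 * b + 3 := ⟨n / 4, by omega⟩
    have e : (4 * a + 3) * (4 * b + 3) = 4 * (4 * (a * b) + 3 * a + 3 * b + 2) + 1 := by ring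
    rw [e, if_pos (by omega), if_neg (by omega), if_neg (by omega)]
    push_cast
    generalize ((a : ℤ) * b) = w
    omega

lemma Rp_pi {q : ℕ} (hq : q.Prime) (h2 : q ≠ 2) : Rp pi1 q = fi (ex q) := by
  have ho : q % 2 = 1 := by
    rcases hq.eq_two_or_odd with h | h
    · exact absurd h h2
    · exact h
  unfold Rp
  by_cases h1 : q % 4 = 1
  · obtain ⟨x, hx, hxp, hxx, hn, hI⟩ := Ip_one hq h1
    rw [hI, Finset.prod_insert (by simpa using hx), Finset.prod_singleton]
    have hpp : PP x := PP_ip hq (by rw [hI]; simp)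
    have e1 := q4_star hpp (star pi1)
    rw [star_star] at e1
    have e2 : (im1 ^ 3 : ZI).norm = 1 := by decide
    have e3 := q4_norm hpp (pi1_ndvd hpp)
    rw [e1, star_pi1, q4_mul hpp, star_mul, q4_unit hpp e2, hn]
    have e5 := unit_star_mul e3
    have e6 : star ((im1 ^ 3 : ZI) ^ (q / 4)) = im1 ^ (q / 4) := by
      rw [star_pow]
      congr 1
    rw [e6]
    have e7 : fi (ex q) = im1 ^ (q / 4) := by
      unfold ex
      rw [if_pos h1, ← fi_nat]
      congr 1
      omega
    rw [e7]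
    linear_combination (im1 ^ (q / 4)) * e5
  · have h3 : q % 4 = 3 := by omega
    rw [Ip_three h3, Finset.prod_singleton]
    obtain ⟨k, hk⟩ : ∃ k, q = 4 * k + 3 := ⟨q / 4, by omega⟩
    rw [Pool.Agent.E8helper23.F1.q4_q hq hk, ← fi_nat]
    apply fi_mod
    unfold ex
    rw [if_neg h1, hk]
    push_cast
    omega

lemma Rs_pi {n : ℕ} (hn : n % 2 = 1) : Rs pi1 n = fi (ex n) := by
  unfold Rs
  have h : ∀ L : List ℕ, (∀ q ∈ L, q.Prime ∧ q ≠ 2) → L.prod % 2 = 1 ∧
      (L.map (Rp pi1)).prod = fi (ex L.prod) := by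
    intro L
    induction L with
    | nil => intro _; exact ⟨rfl, by simp [fi, ex]⟩
    | cons a L ih =>
      intro hL
      obtain ⟨i1, i2⟩ := ih (fun q hq => hL q (List.mem_cons_of_mem _ hq))
      obtain ⟨a1, a2⟩ := hL a List.mem_cons_self
      have ho : a % 2 = 1 := by
        rcases a1.eq_two_or_odd with h | h
        · exact absurd h a2
        · exact h
      rw [List.map_cons, List.prod_cons, List.prod_cons, i2, Rp_pi a1 a2]
      refine ⟨by rw [Nat.mul_mod, ho, i1], ?_⟩
      rw [fi_mod (ex_mul ho i1), fi_add]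
  have h2 := h n.primeFactorsList fun q hq => ⟨Nat.prime_of_mem_primeFactorsList hq, by
    rintro rfl
    have := Nat.dvd_of_mem_primeFactorsList hq
    omega⟩
  rw [h2.2, Nat.prod_primeFactorsList (by omega)]

lemma e8_fi {m : ℤ} (k : ℤ) (h : m = 1 + 4 * k ∨ m = 4 * k - 1) :
    ((e8 m.natAbs : ℤ) : ZI) = fi (2 * k) := by
  rcases Int.emod_two_eq_zero_or_one k with h6 | h6
  · have e1 : fi (2 * k) = fi 0 := fi_mod (by omega)
    rw [e1]
    unfold e8
    rw [if_pos (by omega)]
    decide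
  · have e1 : fi (2 * k) = fi 2 := fi_mod (by omega)
    rw [e1]
    unfold e8
    rw [if_neg (by omega)]
    decide

variable {π : ZI}

/-- **the supplementary law for `1 + i`** -/
theorem core (h : PP π) : q4 π pi1 = fi ((π.re - π.im - π.im ^ 2 - 1) / 4) := by
  have J := JJ_all
  by_cases hb : π.im = 0
  · rcases h.cases with ⟨p, hp, hp4, hpn⟩ | ⟨q, hq, hq4, hqn⟩
    · exfalso
      rw [norm_def', hb] at hpn
      have h1 : ((π.re.natAbs * π.re.natAbs : ℕ) : ℤ) = p := by
        rw [← hpn]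
        push_cast
        rw [← sq, sq_abs]
        ring
      have h2 : π.re.natAbs * π.re.natAbs = p := by exact_mod_cast h1
      rw [← h2] at hp
      have h3 : π.re.natAbs ≠ 1 := by
        intro h4
        rw [h4] at hp
        exact Nat.not_prime_one hp
      exact Nat.not_prime_mul h3 h3 hp
    · obtain ⟨k, hk⟩ : ∃ k, q = 4 * k + 3 := ⟨q / 4, by omega⟩
      have hre : π.re = -(q : ℤ) := by
        rw [hqn]
        simp
      rw [hb, hre, hqn, Pool.Agent.E8helper23.F1.q4_q hq hk, ← fi_nat]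
      apply fi_mod
      rw [hk]
      push_cast
      omega
  · obtain ⟨a, ha⟩ : ∃ a, a = π.re := ⟨_, rfl⟩
    obtain ⟨b, hbd⟩ : ∃ b, b = π.im := ⟨_, rfl⟩
    obtain ⟨s, hs⟩ : ∃ s, s = a + b := ⟨_, rfl⟩
    have a1 := h.re_odd
    have a2 := h.im_even
    have a3 := h.prm.2
    have na := split_not_dvd_re h hb
    rw [← ha] at a1 na
    rw [← hbd] at a2
    rw [← ha, ← hbd, ← hs] at a3
    have hπ : π = (a : ZI) + (b : ZI) * im1 := by
      ext
      · simp only [Zsqrtd.re_add, re_mul', Zsqrtd.re_intCast, Zsqrtd.im_intCast]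
        simp only [im1, ha]; ring
      · simp only [Zsqrtd.im_add, im_mul', Zsqrtd.re_intCast, Zsqrtd.im_intCast]
        simp only [im1, hbd]; ring
    have I2 : im1 * im1 = (-1 : ZI) := by decide
    have e0 : (1 : ZI) + im1 = pi1 := by decide
    have e1 : (s : ZI) - (a : ZI) * pi1 = π * (-im1) := by
      rw [hπ, hs, ← e0]
      push_cast
      linear_combination (b : ZI) * I2
    have ns : ¬ π ∣ (s : ZI) := by
      intro h1
      have h2 : π ∣ (a : ZI) * pi1 := by
        have h3 : (a : ZI) * pi1 = (s : ZI) + π * im1 := by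
          linear_combination -e1
        rw [h3]
        exact dvd_add h1 (dvd_mul_right _ _)
      rcases h.pr.dvd_or_dvd h2 with h3 | h3
      · exact na h3
      · exact pi1_ndvd h h3
    have p1 : q4 π (a : ZI) * q4 π pi1 = q4 π (s : ZI) := by
      rw [← q4_mul h]
      exact (q4_per h ⟨_, e1⟩).symm
    obtain ⟨k, hk⟩ : ∃ k, s = 1 + 4 * k := ⟨s / 4, by omega⟩
    obtain ⟨c, hc⟩ : ∃ c, b = 2 * c := ⟨b / 2, by omega⟩
    -- the symbol of `a`
    have r0 : Rs π a.natAbs = ((e8 a.natAbs : ℤ) : ZI) := by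
      have h1 : Rs π a.natAbs = Rs ((b : ZI) * im1) a.natAbs := by
        apply Rs_per
        have h2 : π - (b : ZI) * im1 = (a : ZI) := by rw [hπ]; ring
        rw [h2]
        exact cast_nab a
      rw [h1, Rs_mul, Rs_im (by omega), Rs_rat, one_mul]
      intro q hq hqc hqd
      exact not_nat_dvd h hb hq (dvd_of_parts (by rw [← ha]; exact Int.natCast_dvd.2 hqc)
        (by rw [← hbd]; exact hqd))
    have r1 := q4_int J h a1 na
    rw [r0] at r1
    -- the symbol of `s`
    have r2 : q4 π (s : ZI) = fi (3 * k) := by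
      rw [q4_int J h (by omega) ns, if_pos a3, one_mul]
      have h1 : Rs π s.natAbs = Rs ((b : ZI) * (im1 * pi1)) s.natAbs := by
        apply Rs_per
        have h2 : π - (b : ZI) * (im1 * pi1) = (s : ZI) := by
          rw [hπ, hs, ← e0]
          push_cast
          linear_combination -(b : ZI) * I2
        rw [h2]
        exact cast_nab s
      have h2 : Rs (b : ZI) s.natAbs = 1 := by
        apply Rs_rat
        intro q hq hqc hqd
        have h3 : (q : ℤ) ∣ s := Int.natCast_dvd.2 hqc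
        have h4 : (q : ℤ) ∣ a := by
          have : a = s - b := by rw [hs]; ring
          rw [this]
          exact dvd_sub h3 hqd
        exact not_nat_dvd h hb hq (dvd_of_parts (by rw [← ha]; exact h4) (by rw [← hbd]; exact hqd))
      rw [h1, Rs_mul, h2, one_mul, Rs_mul, Rs_im (by omega), Rs_pi (by omega),
        e8_fi k (Or.inl hk), ← fi_add]
      apply fi_mod
      unfold ex
      split_ifs with h5 <;> omega
    -- the parity of a quarter of the norm
    have hn : (nrm π : ℤ) = 1 + 4 * (2 * c ^ 2 - c + 2 * k + 4 * (k ^ 2 - k * c)) := by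
      rw [nrm_cast π, norm_def', ← ha, ← hbd, hc]
      have : a = 1 + 4 * k - 2 * c := by omega
      rw [this]
      ring
    have hn4 : (nrm π / 4) % 2 = (c % 2).toNat := by
      generalize (k ^ 2 - k * c) = w at hn
      generalize c ^ 2 = v at hn
      omega
    rw [← ha, ← hbd, hc]
    rcases Int.emod_two_eq_zero_or_one c with h6 | h6
    · obtain ⟨d, hd⟩ : ∃ d, c = 2 * d := ⟨c / 2, by omega⟩
      rw [if_pos (by omega), one_mul, e8_fi (k - d) (by omega)] at r1
      rw [r1, r2] at p1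
      have h7 : fi (2 * (k - d)) * fi (2 * (k - d)) = 1 := by
        rw [← fi_add]
        have : fi (2 * (k - d) + 2 * (k - d)) = fi 0 := fi_mod (by omega)
        rw [this]
        decide
      have h8 : q4 π pi1 = fi (2 * (k - d)) * fi (3 * k) := by
        linear_combination fi (2 * (k - d)) * p1 - q4 π pi1 * h7
      rw [h8, ← fi_add]
      apply fi_mod
      have : a - 2 * c - (2 * c) ^ 2 - 1 = 4 * (k - 2 * d - 4 * d ^ 2) := by
        have : a = 1 + 4 * k - 2 * c := by omega
        rw [this, hd]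
        ring
      rw [this]
      generalize d ^ 2 = w
      omega
    · obtain ⟨d, hd⟩ : ∃ d, c = 2 * d + 1 := ⟨c / 2, by omega⟩
      have hodd : Odd (nrm π / 4) := Nat.odd_iff.2 (by omega)
      rw [if_neg (by omega), hodd.neg_one_pow, e8_fi (k - d) (by omega)] at r1
      have h9 : (-1 : ZI) = fi 2 := by decide
      rw [h9, ← fi_add] at r1
      rw [r1, r2] at p1
      have h7 : fi (2 + 2 * (k - d)) * fi (2 + 2 * (k - d)) = 1 := by
        rw [← fi_add]
        have : fi (2 + 2 * (k - d) + (2 + 2 * (k - d))) = fi 0 := fi_mod (by omega)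
        rw [this]
        decide
      have h8 : q4 π pi1 = fi (2 + 2 * (k - d)) * fi (3 * k) := by
        linear_combination fi (2 + 2 * (k - d)) * p1 - q4 π pi1 * h7
      rw [h8, ← fi_add]
      apply fi_mod
      have : a - 2 * c - (2 * c) ^ 2 - 1 = 4 * (k - 2 * d - 2 - 4 * (d ^ 2 + d)) := by
        have : a = 1 + 4 * k - 2 * c := by omega
        rw [this, hd]
        ring
      rw [this]
      generalize d ^ 2 + d = w
      omega

end Pool.Agent.E8helper10.F3
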