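import Pool.Agent.E8helper75.F3.Stm
import Pool.Agent.E8helper10.F3.SupC

/-!
Project F3, piece SUP3: the supplementary law of the quartic symbol for `1 + i`.
-/

set_option autoImplicit false

namespace Pool.Agent.E8helper10.F3

/-- **SUP3.** -/
theorem t_SUP3 : Pool.Agent.E8helper75.F3.S_SUP3 := fun _ h => core h

end Pool.Agent.E8helper10.F3
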